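import Pool.Agent.Q4.SPC.Stm5
import Pool.Agent.Q109.SPC.GS

/-! HS1 for project SPC (MP_34be05_nt): `Sp_{2n}(F)` has no proper subgroup of finite index. -/

set_option autoImplicit false

open IsDedekindDomain NumberField Matrix Q4.GLC Q4.SPC Pool.Agent.Q109.SPC

namespace Pool.Agent.Q254.SPC

theorem hs1 : HS1 := by
  intro hSA F _ _ n Γ hΓ
  rw [eq_top_iff]
  intro s _
  have hs := hSA F (_root_.Q211.GLC.sr1_field F) n s
  set m := Γ.normalCore.index with hm
  have hm0 : m ≠ 0 := Subgroup.FiniteIndex.index_ne_zero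
  have hmF : (m : F) ≠ 0 := Nat.cast_ne_zero.2 hm0
  have hpow : ∀ h : Sp n F, h ^ m ∈ Γ := fun h =>
    Subgroup.normalCore_le Γ (Subgroup.pow_index_mem Γ.normalCore h)
  have key : ∀ x : Sp n F, (∃ y : Sp n F, x = y ^ m) → x ∈ Γ := by
    rintro x ⟨y, rfl⟩
    exact hpow _
  induction hs using Subgroup.closure_induction with
  | mem x hx =>
    apply key
    rcases hx with ⟨S, hS, e⟩ | ⟨S, hS, e⟩ | ⟨i, j, h, c, e⟩
    · refine ⟨up ((m : F)⁻¹ • S) (by rw [transpose_smul, hS]), ?_⟩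
      rw [up_pow]
      refine Subtype.ext ?_
      rw [e]
      change fromBlocks 1 _ 0 1 = fromBlocks 1 ((m : F) • ((m : F)⁻¹ • S)) 0 1
      rw [smul_smul, mul_inv_cancel₀ hmF]
    · refine ⟨lo ((m : F)⁻¹ • S) (by rw [transpose_smul, hS]), ?_⟩
      rw [lo_pow]
      refine Subtype.ext ?_
      rw [e]
      change fromBlocks 1 0 _ 1 = fromBlocks 1 0 ((m : F) • ((m : F)⁻¹ • S)) 1
      rw [smul_smul, mul_inv_cancel₀ hmF]
    · refine ⟨lvt i j h ((m : F)⁻¹ * (1 * c)), ?_⟩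
      rw [lvt_pow]
      refine Subtype.ext ?_
      rw [← mul_assoc, mul_inv_cancel₀ hmF, one_mul]
      rw [e]
      rfl
  | one => exact Γ.one_mem
  | mul x y _ _ hx hy => exact Γ.mul_mem (hx trivial) (hy trivial)
  | inv x _ hx => exact Γ.inv_mem (hx trivial)

end Pool.Agent.Q254.SPC

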